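import Pool.Agent.W96.CL.Stm
set_option autoImplicit false

/-! Project CL (helper96), part CL-ERR: the error terms tend to zero. -/

open Polynomial Filter Topology MeasureTheory

namespace W96CL

lemma err_kk_pos (l : ℝ) : 0 < kk l := by
  unfold kk
  have := Real.cosh_pos (3 * l / 2)
  have := Real.pi_pos
  positivity

lemma err_kk_even (l : ℝ) : kk (-l) = kk l := by
  unfold kk
  have : 3 * (-l) / 2 = -(3 * l / 2) := by ring
  rw [this, Real.cosh_neg]

lemma err_kk_cont : Continuous kk := by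
  unfold kk
  refine Continuous.div continuous_const ?_ ?_
  · exact continuous_const.mul (Real.continuous_cosh.comp (by fun_prop))
  · intro l
    have := Real.cosh_pos (3 * l / 2)
    have := Real.pi_pos
    positivity

lemma err_kk_le (l : ℝ) : kk l ≤ 3 / (2 * Real.pi) * Real.exp (-(3 * |l| / 2)) := by
  unfold kk
  have h1 : Real.exp |3 * l / 2| / 2 ≤ Real.cosh (3 * l / 2) := by
    rw [Real.cosh_eq]
    rcases abs_cases (3 * l / 2) with ⟨h, _⟩ | ⟨h, _⟩ <;> rw [h]
    · have := Real.exp_pos (-(3 * l / 2))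
      linarith
    · have := Real.exp_pos (3 * l / 2)
      linarith
  have h2 : |3 * l / 2| = 3 * |l| / 2 := by
    rw [abs_div, abs_mul]; norm_num
  rw [h2] at h1
  have hpi := Real.pi_pos
  have hc := Real.cosh_pos (3 * l / 2)
  have he := Real.exp_pos (3 * |l| / 2)
  rw [Real.exp_neg, div_mul_eq_mul_div, div_le_div_iff₀ (by positivity) (by positivity)]
  have h3 : 1 ≤ 2 * Real.cosh (3 * l / 2) * (Real.exp (3 * |l| / 2))⁻¹ := by
    rw [← div_eq_mul_inv, le_div_iff₀ he]
    linarith
  nlinarith [mul_le_mul_of_nonneg_left h3 (by positivity : (0:ℝ) ≤ 6 * Real.pi)]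

lemma err_kk_ge {l : ℝ} (hl : 0 ≤ l) : 3 / (4 * Real.pi) * Real.exp (-(3 * l / 2)) ≤ kk l := by
  unfold kk
  have hpi := Real.pi_pos
  have hc := Real.cosh_pos (3 * l / 2)
  have he := Real.exp_pos (3 * l / 2)
  have h1 : Real.cosh (3 * l / 2) ≤ Real.exp (3 * l / 2) := by
    rw [Real.cosh_eq]
    have : Real.exp (-(3 * l / 2)) ≤ Real.exp (3 * l / 2) := Real.exp_le_exp.2 (by linarith)
    linarith
  rw [Real.exp_neg, div_mul_eq_mul_div, div_le_div_iff₀ (by positivity) (by positivity)]
  have h3 : Real.cosh (3 * l / 2) * (Real.exp (3 * l / 2))⁻¹ ≤ 1 := by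
    rw [← div_eq_mul_inv, div_le_iff₀ he]
    linarith
  nlinarith [mul_le_mul_of_nonneg_left h3 (by positivity : (0:ℝ) ≤ 12 * Real.pi)]

lemma err_expabs_int : Integrable (fun l : ℝ => Real.exp (-(3 * |l| / 2))) := by
  rw [← integrableOn_univ, ← Set.Iic_union_Ioi (a := (0 : ℝ))]
  refine IntegrableOn.union ?_ ?_
  · refine (integrableOn_exp_mul_Iic (a := 3 / 2) (by norm_num) 0).congr_fun ?_ measurableSet_Iic
    intro x hx
    simp only [Set.mem_Iic] at hx
    simp only
    congr 1
    rw [abs_of_nonpos hx]; ring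
  · refine (exp_neg_integrableOn_Ioi 0 (b := 3 / 2) (by norm_num)).congr_fun ?_ measurableSet_Ioi
    intro x hx
    simp only [Set.mem_Ioi] at hx
    simp only
    congr 1
    rw [abs_of_pos hx]; ring

lemma err_exp_int : IntegrableOn (fun l : ℝ => Real.exp (-(3 * l / 2))) (Set.Ioi 0) := by
  refine (exp_neg_integrableOn_Ioi 0 (b := 3 / 2) (by norm_num)).congr_fun ?_ measurableSet_Ioi
  intro x hx
  simp only
  congr 1
  ring

lemma err_kk_int : Integrable kk := by
  refine (err_expabs_int.const_mul (3 / (2 * Real.pi))).mono' err_kk_cont.aestronglyMeasurable ?_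
  refine Eventually.of_forall fun l => ?_
  rw [Real.norm_eq_abs, abs_of_pos (err_kk_pos l)]
  exact err_kk_le l

/-- the derivative of the kernel -/
noncomputable def err_kd (l : ℝ) : ℝ :=
  -(9 / 2 * Real.sinh (3 * l / 2)) / (4 * Real.pi * Real.cosh (3 * l / 2) ^ 2)

lemma err_kk_deriv (l : ℝ) : HasDerivAt kk (err_kd l) l := by
  have h1 : HasDerivAt (fun l : ℝ => 3 * l / 2) (3 / 2) l := by
    have := ((hasDerivAt_id l).const_mul 3).div_const 2
    simpa using this
  have h2 := (h1.cosh).const_mul (4 * Real.pi)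
  have hc := Real.cosh_pos (3 * l / 2)
  have hpi := Real.pi_pos
  have h3 := (hasDerivAt_const l (3 : ℝ)).div h2 (by positivity)
  refine h3.congr_deriv ?_
  unfold err_kd
  field_simp
  ring

lemma err_kd_cont : Continuous err_kd := by
  unfold err_kd
  refine Continuous.div (by fun_prop) (by fun_prop) ?_
  intro l
  have := Real.cosh_pos (3 * l / 2)
  have := Real.pi_pos
  positivity

lemma err_kd_le (l : ℝ) : |err_kd l| ≤ 3 / 2 * kk l := by
  unfold err_kd kk
  have hc := Real.cosh_pos (3 * l / 2)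
  have hpi := Real.pi_pos
  have hs : |Real.sinh (3 * l / 2)| ≤ Real.cosh (3 * l / 2) := by
    rw [abs_le]
    have h1 := Real.cosh_sq (3 * l / 2)
    constructor <;> nlinarith
  rw [abs_div, abs_neg, abs_mul, abs_of_pos (by norm_num : (0 : ℝ) < 9 / 2),
    abs_of_pos (by positivity : 0 < 4 * Real.pi * Real.cosh (3 * l / 2) ^ 2),
    ← mul_div_assoc, div_le_div_iff₀ (by positivity) (by positivity)]
  have h2 := mul_le_mul_of_nonneg_left hs (by positivity : 0 ≤ 18 * Real.pi * Real.cosh (3 * l / 2))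
  calc 9 / 2 * |Real.sinh (3 * l / 2)| * (4 * Real.pi * Real.cosh (3 * l / 2)) =
        18 * Real.pi * Real.cosh (3 * l / 2) * |Real.sinh (3 * l / 2)| := by ring
    _ ≤ 18 * Real.pi * Real.cosh (3 * l / 2) * Real.cosh (3 * l / 2) := h2
    _ = 3 / 2 * 3 * (4 * Real.pi * Real.cosh (3 * l / 2) ^ 2) := by ring

/-- consequences of `Ev` -/
lemma err_ev {f : ℝ → ℝ} {c : ℝ} (h : Ev f c) : Continuous f ∧ Continuous (deriv f) ∧
    (∀ x, HasDerivAt f (deriv f x) x) ∧ ∃ B : ℝ, 0 ≤ B ∧ (∀ x, |f x| ≤ B) ∧ ∀ x, |deriv f x| ≤ B := by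
  obtain ⟨K, hK⟩ := h.dec
  have hd : Differentiable ℝ f := h.diff.differentiable (by norm_num)
  have hK0 : 0 ≤ K := by
    have := (hK 0).1
    have h1 := abs_nonneg (f 0 - c)
    simp only [abs_zero, neg_zero, Real.exp_zero, mul_one] at this
    linarith
  have he : ∀ u : ℝ, K * Real.exp (-|u|) ≤ K := fun u => by
    have : Real.exp (-|u|) ≤ 1 := Real.exp_le_one_iff.2 (by have := abs_nonneg u; linarith)
    nlinarith
  refine ⟨h.diff.continuous, h.diff.continuous_deriv (by norm_num), fun x => (hd x).hasDerivAt,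
    K + |c|, by positivity, fun x => ?_, fun x => ?_⟩
  · have h1 := (hK x).1.trans (he x)
    have h2 := abs_sub_abs_le_abs_sub (f x) c
    linarith
  · have h1 := (hK x).2.trans (he x)
    have h2 := abs_nonneg c
    linarith

lemma err_bd_int {f g : ℝ → ℝ} {B : ℝ} (hf : Continuous f) (hB : ∀ x, |f x| ≤ B)
    {s : Set ℝ} (hg : IntegrableOn g s) : IntegrableOn (fun x => f x * g x) s := by
  refine Integrable.bdd_mul (c := B) hg hf.aestronglyMeasurable ?_
  exact Eventually.of_forall fun x => by rw [Real.norm_eq_abs]; exact hB x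

lemma err_inner {h : ℝ → ℝ} {c : ℝ} (hE : Ev h c) (h0 : h 0 = 0) (hn : ∀ u, 0 ≤ h u) (v : ℝ)
    (hv : 0 ≤ v) : |∫ u in Set.Ioi (0 : ℝ), deriv h u * kk (u + v)| ≤
      9 / (4 * Real.pi) * Real.exp (-(3 * v / 2)) *
        ∫ u in Set.Ioi (0 : ℝ), h u * Real.exp (-(3 * u / 2)) := by
  obtain ⟨hc, hc', hd, B, hB0, hB, hB'⟩ := err_ev hE
  have hpi := Real.pi_pos
  have hkd : ∀ x : ℝ, HasDerivAt (fun u => kk (u + v)) (err_kd (x + v)) x := by
    intro x
    exact HasDerivAt.comp_add_const x v (err_kk_deriv (x + v))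
  have hki : Integrable (fun u => kk (u + v)) := err_kk_int.comp_add_right v
  have hkdi : Integrable (fun u => err_kd (u + v)) := by
    refine (hki.const_mul (3 / 2)).mono' (err_kd_cont.comp (by fun_prop)).aestronglyMeasurable ?_
    exact Eventually.of_forall fun x => by rw [Real.norm_eq_abs]; exact err_kd_le _
  have i1 : IntegrableOn (fun u => h u * err_kd (u + v)) (Set.Ioi 0) :=
    err_bd_int hc hB hkdi.integrableOn
  have i2 : IntegrableOn (fun u => deriv h u * kk (u + v)) (Set.Ioi 0) :=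
    err_bd_int hc' hB' hki.integrableOn
  have hzero : Tendsto (h * fun u => kk (u + v)) (𝓝[>] 0) (𝓝 0) := by
    have h1 : Continuous (h * fun u => kk (u + v)) := hc.mul (err_kk_cont.comp (by fun_prop))
    have h2 := h1.tendsto 0
    simp only [Pi.mul_apply, h0, zero_mul] at h2
    exact h2.mono_left nhdsWithin_le_nhds
  have hinf : Tendsto (h * fun u => kk (u + v)) atTop (𝓝 0) := by
    have h1 : Tendsto (fun u : ℝ => B * (3 / (2 * Real.pi) * Real.exp (-(3 / 2 * u)))) atTop (𝓝 0) := by
      have h2 : Tendsto (fun u : ℝ => Real.exp (-(3 / 2 * u))) atTop (𝓝 0) := by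
        refine Real.tendsto_exp_neg_atTop_nhds_zero.comp ?_
        exact tendsto_id.const_mul_atTop (by norm_num)
      have h3 := (h2.const_mul (3 / (2 * Real.pi))).const_mul B
      simpa using h3
    refine squeeze_zero_norm' ?_ h1
    filter_upwards [eventually_ge_atTop 0] with u hu
    rw [Pi.mul_apply, norm_mul, Real.norm_eq_abs, Real.norm_eq_abs, abs_of_pos (err_kk_pos _)]
    refine mul_le_mul (hB u) ?_ (err_kk_pos _).le hB0
    refine (err_kk_le _).trans ?_
    refine mul_le_mul_of_nonneg_left ?_ (by positivity)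
    rw [abs_of_nonneg (by linarith)]
    exact Real.exp_le_exp.2 (by linarith)
  have hparts := integral_Ioi_mul_deriv_eq_deriv_mul (a := 0) (u := h) (v := fun u => kk (u + v))
    (u' := deriv h) (v' := fun u => err_kd (u + v)) (a' := 0) (b' := 0) (fun x _ => hd x)
    (fun x _ => hkd x) i1 i2 hzero hinf
  have e1 : ∫ u in Set.Ioi (0 : ℝ), deriv h u * kk (u + v) =
      -∫ u in Set.Ioi (0 : ℝ), h u * err_kd (u + v) := by
    rw [hparts]; ring
  rw [e1, abs_neg, ← integral_const_mul, ← Real.norm_eq_abs]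
  have hwi : IntegrableOn (fun u => h u * Real.exp (-(3 * u / 2))) (Set.Ioi 0) :=
    err_bd_int hc hB err_exp_int
  refine norm_integral_le_of_norm_le (hwi.const_mul _) ?_
  rw [ae_restrict_iff' measurableSet_Ioi]
  refine Eventually.of_forall fun u hu => ?_
  rw [Set.mem_Ioi] at hu
  rw [norm_mul, Real.norm_eq_abs, Real.norm_eq_abs, abs_of_nonneg (hn u)]
  have h1 := err_kd_le (u + v)
  have h2 := err_kk_le (u + v)
  rw [abs_of_nonneg (by linarith)] at h2
  have h3 : Real.exp (-(3 * (u + v) / 2)) = Real.exp (-(3 * v / 2)) * Real.exp (-(3 * u / 2)) := by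
    rw [← Real.exp_add]; congr 1; ring
  rw [h3] at h2
  calc h u * |err_kd (u + v)| ≤ h u * (3 / 2 * (3 / (2 * Real.pi) *
        (Real.exp (-(3 * v / 2)) * Real.exp (-(3 * u / 2))))) := by
        refine mul_le_mul_of_nonneg_left ?_ (hn u)
        linarith
    _ = 9 / (4 * Real.pi) * Real.exp (-(3 * v / 2)) * (h u * Real.exp (-(3 * u / 2))) := by
        field_simp
        ring

lemma err_weight {h : ℝ → ℝ} {c : ℝ} (hE : Ev h c) (hn : ∀ u, 0 ≤ h u) :
    ∫ u in Set.Ioi (0 : ℝ), h u * Real.exp (-(3 * u / 2)) ≤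
      4 * Real.pi / 3 * ∫ v : ℝ, kk (0 - v) * h v := by
  obtain ⟨hc, hc', hd, B, hB0, hB, hB'⟩ := err_ev hE
  have hpi := Real.pi_pos
  have hki : Integrable (fun v => kk (0 - v)) := err_kk_int.comp_sub_left 0
  have hkh : Integrable (fun v => kk (0 - v) * h v) := by
    have h1 : IntegrableOn (fun v => h v * kk (0 - v)) Set.univ :=
      err_bd_int hc hB hki.integrableOn
    rw [integrableOn_univ] at h1
    refine h1.congr (Eventually.of_forall fun v => ?_)
    simp only
    ring
  have h1 : ∫ v in Set.Ioi (0 : ℝ), kk (0 - v) * h v ≤ ∫ v : ℝ, kk (0 - v) * h v := by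
    refine setIntegral_le_integral hkh ?_
    exact Eventually.of_forall fun v => mul_nonneg (err_kk_pos _).le (hn v)
  have h2 : ∫ u in Set.Ioi (0 : ℝ), h u * Real.exp (-(3 * u / 2)) ≤
      ∫ v in Set.Ioi (0 : ℝ), 4 * Real.pi / 3 * (kk (0 - v) * h v) := by
    refine setIntegral_mono_on (err_bd_int hc hB err_exp_int) (hkh.integrableOn.const_mul _)
      measurableSet_Ioi ?_
    intro u hu
    rw [Set.mem_Ioi] at hu
    have h3 := err_kk_ge hu.le
    rw [zero_sub, err_kk_even]
    have h4 := mul_le_mul_of_nonneg_left h3 (mul_nonneg (by positivity : 0 ≤ 4 * Real.pi / 3) (hn u))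
    calc h u * Real.exp (-(3 * u / 2)) =
          4 * Real.pi / 3 * h u * (3 / (4 * Real.pi) * Real.exp (-(3 * u / 2))) := by
          field_simp
      _ ≤ 4 * Real.pi / 3 * h u * kk u := h4
      _ = _ := by ring
  rw [integral_const_mul] at h2
  refine h2.trans (mul_le_mul_of_nonneg_left h1 (by positivity))

lemma err_tanh (x : ℝ) : Real.tanh x = (1 - Real.exp (-(2 * x))) / (1 + Real.exp (-(2 * x))) := by
  rw [Real.tanh_eq_sinh_div_cosh, Real.sinh_eq, Real.cosh_eq]
  have h1 := Real.exp_pos x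
  have h2 : Real.exp (-x) = Real.exp x * Real.exp (-(2 * x)) := by
    rw [← Real.exp_add]; congr 1; ring
  have h3 := Real.exp_pos (-(2 * x))
  rw [h2]
  field_simp

lemma err_tanh_pos {x : ℝ} (hx : 0 < x) : 0 < Real.tanh x := by
  rw [Real.tanh_eq_sinh_div_cosh]
  exact div_pos (Real.sinh_pos_iff.2 hx) (Real.cosh_pos _)

lemma err_logtanh {x : ℝ} (hx : Real.exp (-(2 * x)) ≤ 1 / 2) :
    -Real.log (Real.tanh x) ≤ 4 * Real.exp (-(2 * x)) := by
  rw [err_tanh]
  set q := Real.exp (-(2 * x)) with hq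
  have hq0 : 0 < q := Real.exp_pos _
  have h1 : 0 < (1 - q) / (1 + q) := div_pos (by linarith) (by linarith)
  have h2 := Real.one_sub_inv_le_log_of_pos h1
  rw [inv_div] at h2
  have h3 : (1 + q) / (1 - q) ≤ 1 + 4 * q := by
    rw [div_le_iff₀ (by linarith)]
    nlinarith
  linarith

theorem cl_err (hp : S_pos) (hm : S_mass) (he : S_ev) : S_err := by
  intro θ z0 s r lam hT
  obtain ⟨hHi, hHm⟩ := hm θ z0 s r lam hT
  have hpi := Real.pi_pos
  -- E n tends to zero
  set E : ℕ → ℝ := fun n => Real.exp (-(3 * z0 n / 2)) with hE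
  have hE0 : ∀ n, 0 < E n := fun n => Real.exp_pos _
  have hcos : 0 < Real.cos (3 * θ / 2) := by
    have h0 := (hT 0).th0
    have h1 := (hT 0).th1
    exact Real.cos_pos_of_mem_Ioo ⟨by linarith, by linarith⟩
  have hElim : Tendsto E atTop (𝓝 0) := by
    have h1 : Tendsto (fun n : ℕ => (Real.cos (3 * θ / 2))⁻¹ * (1 / ((n : ℝ) + 1))) atTop (𝓝 0) := by
      have := tendsto_one_div_add_atTop_nhds_zero_nat (𝕜 := ℝ)
      simpa using this.const_mul (Real.cos (3 * θ / 2))⁻¹
    refine squeeze_zero (fun n => (hE0 n).le) (fun n => ?_) h1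
    have h2 := (hp (n + 1) θ (z0 n) (s n) (r n) (lam n) (hT n)).1
    have h3 : Real.sinh (3 * z0 n / 2) ≤ Real.exp (3 * z0 n / 2) := by
      rw [Real.sinh_eq]
      have := Real.exp_pos (-(3 * z0 n / 2))
      have := Real.exp_pos (3 * z0 n / 2)
      linarith
    push_cast at h2
    have h4 : 0 < ((n : ℝ) + 1) * Real.cos (3 * θ / 2) := by positivity
    simp only [hE]
    rw [Real.exp_neg, ← one_div, ← one_div, div_mul_div_comm, one_mul]
    exact one_div_le_one_div_of_le (by positivity) (by linarith)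
  have hEev : ∀ᶠ n in atTop, E n ≤ 1 / 2 := by
    filter_upwards [hElim.eventually (gt_mem_nhds (show (0 : ℝ) < 1 / 2 by norm_num))] with n hn
    exact hn.le
  -- H
  set H : ℕ → ℝ → ℝ := fun n v => Real.log 3 - Real.log (1 - s n v) with hH
  have hH0 : ∀ n v, 0 ≤ H n v := by
    intro n v
    have h1 := (hT n).s_lt v
    have h2 := (hT n).s_ge v
    have : Real.log (1 - s n v) ≤ Real.log 3 := Real.log_le_log (by linarith) (by linarith)
    simp only [hH]
    linarith
  have hlog3 : 0 ≤ Real.log 3 := Real.log_nonneg (by norm_num)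
  have hG : ∀ n v, |Real.log (1 - s n v)| ≤ Real.log 3 + H n v := by
    intro n v
    have h1 := hH0 n v
    have h2 : Real.log (1 - s n v) = Real.log 3 - H n v := by simp only [hH]; ring
    rw [h2, abs_le]
    constructor <;> linarith
  -- the weight
  set g : ℕ → ℝ → ℝ := fun n v => (Real.log 3 + H n v) * Real.exp (-(3 * v / 2)) with hg
  have hgi : ∀ n, IntegrableOn (g n) (Set.Ioi 0) := by
    intro n
    have := (err_exp_int.const_mul (Real.log 3)).add (hHi n)
    refine this.congr (Eventually.of_forall fun v => ?_)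
    simp only [hg, hH, Pi.add_apply]
    ring
  have hgn : ∀ n, ∫ v in Set.Ioi (0 : ℝ), g n v = Real.log 3 *
      (∫ v in Set.Ioi (0 : ℝ), Real.exp (-(3 * v / 2))) +
      ∫ v in Set.Ioi (0 : ℝ), H n v * Real.exp (-(3 * v / 2)) := by
    intro n
    rw [← integral_const_mul, ← integral_add (err_exp_int.const_mul (Real.log 3)) (hHi n)]
    refine integral_congr_ae (Eventually.of_forall fun v => ?_)
    simp only [hg, hH]
    ring
  have hglim : Tendsto (fun n => E n * ∫ v in Set.Ioi (0 : ℝ), g n v) atTop (𝓝 0) := by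
    have h1 := (hElim.mul_const (Real.log 3 *
      (∫ v in Set.Ioi (0 : ℝ), Real.exp (-(3 * v / 2))))).add hHm
    simp only [zero_mul, add_zero] at h1
    refine h1.congr fun n => ?_
    rw [hgn]
    simp only [hE, hH]
    ring
  -- h = log (1 + r^2)
  set h : ℕ → ℝ → ℝ := fun n v => Real.log (1 + r n v ^ 2) with hh
  have hhE : ∀ n, Ev (h n) (Real.log 4) := fun n => (he (n + 1) θ (z0 n) (s n) (r n) (lam n) (hT n)).2.1
  have hh0 : ∀ n, h n 0 = 0 := by
    intro n
    have := (he (n + 1) θ (z0 n) (s n) (r n) (lam n) (hT n)).2.2.1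
    simp only [hh, this]
    norm_num
  have hs0 : ∀ n, 0 < s n 0 := fun n => (he (n + 1) θ (z0 n) (s n) (r n) (lam n) (hT n)).2.2.2
  have hhn : ∀ n v, 0 ≤ h n v := by
    intro n v
    exact Real.log_nonneg (by nlinarith [sq_nonneg (r n v)])
  -- value at zero
  have hrep : ∀ n, Real.log (s n 0) = 2 * Real.log (Real.tanh (3 * z0 n / 4)) +
      ∫ v : ℝ, kk (0 - v) * h n v := by
    intro n
    have h1 := (hT n).rep_s 0 le_rfl (hT n).z0pos.ne
    rw [abs_of_pos (hs0 n)] at h1
    have e1 : 3 * (0 - z0 n) / 4 = -(3 * z0 n / 4) := by ring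
    have e2 : 3 * (0 + z0 n) / 4 = 3 * z0 n / 4 := by ring
    have h2 : 0 < Real.tanh (3 * z0 n / 4) := by
      have := (hT n).z0pos
      exact err_tanh_pos (by positivity)
    rw [e1, e2, Real.tanh_neg, abs_neg, abs_of_pos h2] at h1
    rw [h1]
    simp only [hh]
    ring
  have htp : ∀ n, 0 < Real.tanh (3 * z0 n / 4) := fun n => by
    have := (hT n).z0pos
    exact err_tanh_pos (by positivity)
  have hexp2 : ∀ n, Real.exp (-(2 * (3 * z0 n / 4))) = E n := fun n => by
    simp only [hE]; congr 1; ring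
  have hW : ∀ᶠ n in atTop, ∫ v : ℝ, kk (0 - v) * h n v ≤ 8 * E n := by
    filter_upwards [hEev] with n hn
    have h1 := hrep n
    have h2 : Real.log (s n 0) ≤ 0 := Real.log_nonpos (hs0 n).le ((hT n).s_lt 0).le
    have h3 := err_logtanh (x := 3 * z0 n / 4) (by rw [hexp2]; exact hn)
    rw [hexp2] at h3
    linarith
  refine ⟨?_, ?_, ?_⟩
  · -- first integral
    have hlim := hglim.const_mul 4
    rw [mul_zero] at hlim
    refine squeeze_zero_norm' ?_ hlim
    filter_upwards [hEev] with n hn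
    have e : 4 * (E n * ∫ v in Set.Ioi (0 : ℝ), g n v) = ∫ v in Set.Ioi (0 : ℝ), 4 * E n * g n v := by
      rw [integral_const_mul]; ring
    rw [e]
    refine norm_integral_le_of_norm_le ((hgi n).const_mul _) ?_
    rw [ae_restrict_iff' measurableSet_Ioi]
    refine Eventually.of_forall fun v hv => ?_
    rw [Set.mem_Ioi] at hv
    have hz := (hT n).z0pos
    have hsh : Real.exp (3 * (v + z0 n) / 2) / 4 ≤ Real.sinh (3 * (v + z0 n) / 2) := by
      rw [Real.sinh_eq]
      have h1 : Real.exp (-(3 * (v + z0 n) / 2)) ≤ E n := Real.exp_le_exp.2 (by linarith)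
      have h2 : 1 ≤ Real.exp (3 * (v + z0 n) / 2) := Real.one_le_exp (by positivity)
      linarith
    have hep := Real.exp_pos (3 * (v + z0 n) / 2)
    have hsp : 0 < Real.sinh (3 * (v + z0 n) / 2) := by linarith
    rw [norm_div, Real.norm_eq_abs, Real.norm_eq_abs, abs_of_pos hsp, div_le_iff₀ hsp]
    refine (hG n v).trans ?_
    have h3 : E n * Real.exp (-(3 * v / 2)) * Real.exp (3 * (v + z0 n) / 2) = 1 := by
      simp only [hE]
      rw [← Real.exp_add, ← Real.exp_add, Real.exp_eq_one_iff]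
      ring
    have h4 : 0 ≤ Real.log 3 + H n v := by have := hH0 n v; linarith
    have h5 := mul_le_mul_of_nonneg_left hsh (mul_nonneg h4
      (by positivity : 0 ≤ 4 * (E n * Real.exp (-(3 * v / 2)))))
    have h6 : (Real.log 3 + H n v) * (4 * (E n * Real.exp (-(3 * v / 2)))) *
        (Real.exp (3 * (v + z0 n) / 2) / 4) = Real.log 3 + H n v := by
      calc _ = (Real.log 3 + H n v) * (E n * Real.exp (-(3 * v / 2)) *
            Real.exp (3 * (v + z0 n) / 2)) := by ring
        _ = _ := by rw [h3, mul_one]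
    rw [h6] at h5
    refine h5.trans (le_of_eq ?_)
    simp only [hg]
    ring
  · -- second integral
    have hlim := hglim.const_mul 24
    rw [mul_zero] at hlim
    refine squeeze_zero_norm' ?_ hlim
    filter_upwards [hW] with n hn
    have e : 24 * (E n * ∫ v in Set.Ioi (0 : ℝ), g n v) =
        ∫ v in Set.Ioi (0 : ℝ), 24 * E n * g n v := by
      rw [integral_const_mul]; ring
    rw [e]
    refine norm_integral_le_of_norm_le ((hgi n).const_mul _) ?_
    rw [ae_restrict_iff' measurableSet_Ioi]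
    refine Eventually.of_forall fun v hv => ?_
    rw [Set.mem_Ioi] at hv
    rw [norm_mul, Real.norm_eq_abs, Real.norm_eq_abs]
    have h1 := err_inner (hhE n) (hh0 n) (hhn n) v hv.le
    have h2 := err_weight (hhE n) (hhn n)
    have h3 : 9 / (4 * Real.pi) * Real.exp (-(3 * v / 2)) *
        (∫ u in Set.Ioi (0 : ℝ), h n u * Real.exp (-(3 * u / 2))) ≤
        24 * E n * Real.exp (-(3 * v / 2)) := by
      have h4 : (∫ u in Set.Ioi (0 : ℝ), h n u * Real.exp (-(3 * u / 2))) ≤
          4 * Real.pi / 3 * (8 * E n) :=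
        h2.trans (mul_le_mul_of_nonneg_left hn (by positivity))
      calc _ ≤ 9 / (4 * Real.pi) * Real.exp (-(3 * v / 2)) * (4 * Real.pi / 3 * (8 * E n)) :=
            mul_le_mul_of_nonneg_left h4 (by positivity)
        _ = _ := by field_simp; ring
    have h5 := h1.trans h3
    have h6 : 0 ≤ Real.log 3 + H n v := by have := hH0 n v; linarith
    calc _ ≤ (Real.log 3 + H n v) * (24 * E n * Real.exp (-(3 * v / 2))) :=
          mul_le_mul (hG n v) h5 (abs_nonneg _) h6
      _ = 24 * E n * g n v := by simp only [hg]; ring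
  · -- s n 0 → 1
    rw [tendsto_nhdsWithin_iff]
    refine ⟨?_, Eventually.of_forall fun n => (hT n).s_lt 0⟩
    have hlow : ∀ n, ((1 - E n) / (1 + E n)) ^ 2 ≤ s n 0 := by
      intro n
      have h1 : Real.tanh (3 * z0 n / 4) = (1 - E n) / (1 + E n) := by
        rw [err_tanh, hexp2]
      rw [← h1]
      have h2 : Real.log (Real.tanh (3 * z0 n / 4) ^ 2) ≤ Real.log (s n 0) := by
        rw [Real.log_pow, hrep n]
        push_cast
        have : 0 ≤ ∫ v : ℝ, kk (0 - v) * h n v :=
          integral_nonneg fun v => mul_nonneg (err_kk_pos _).le (hhn n v)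
        linarith
      exact (Real.log_le_log_iff (by have := htp n; positivity) (hs0 n)).1 h2
    have hlim : Tendsto (fun n => ((1 - E n) / (1 + E n)) ^ 2) atTop (𝓝 1) := by
      have h1 : Tendsto (fun n => ((1 - E n) / (1 + E n)) ^ 2) atTop (𝓝 (((1 - 0) / (1 + 0)) ^ 2)) :=
        ((tendsto_const_nhds.sub hElim).div (tendsto_const_nhds.add hElim) (by norm_num)).pow 2
      simpa using h1
    exact tendsto_of_tendsto_of_tendsto_of_le_of_le hlim tendsto_const_nhds hlow
      (fun n => ((hT n).s_lt 0).le)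

end W96CL
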